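import Pool.Agent.Helper89.GW.Stmts

/-!
# Module MU: the mollified step
-/

set_option autoImplicit false

open scoped ContDiff Topology
open Set Filter MeasureTheory

namespace GW

lemma mu_rho_contDiff : ContDiff ℝ ∞ rho := bmp.contDiff_normed

lemma mu_rho_cont : Continuous rho := mu_rho_contDiff.continuous

lemma mu_rho_even (x : ℝ) : rho (-x) = rho x := by
  unfold rho
  exact bmp.normed_neg x

lemma mu_rho_zero (x : ℝ) (hx : 1 / 4 ≤ |x|) : rho x = 0 := by
  unfold rho
  rw [ContDiffBump.normed_def]
  have : bmp x = 0 := by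
    apply bmp.zero_of_le_dist
    rw [Real.dist_eq, sub_zero]
    exact hx
  rw [this]; simp

lemma mu_rho_pos (x : ℝ) (hx : |x| < 1 / 4) : 0 < rho x := by
  unfold rho
  rw [ContDiffBump.normed_def]
  apply div_pos
  · apply bmp.pos_of_mem_ball
    rw [Metric.mem_ball, Real.dist_eq, sub_zero]
    exact hx
  · exact bmp.integral_pos

lemma mu_rho_nonneg (x : ℝ) : 0 ≤ rho x := bmp.nonneg_normed x

lemma mu_rho_const (x : ℝ) (hx : |x| ≤ 1 / 8) : rho x = rho 0 := by
  unfold rho
  rw [ContDiffBump.normed_def, ContDiffBump.normed_def]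
  have h1 : bmp x = 1 := by
    apply bmp.one_of_mem_closedBall
    rw [Metric.mem_closedBall, Real.dist_eq, sub_zero]
    exact hx
  have h2 : bmp (0 : ℝ) = 1 := by
    apply bmp.one_of_mem_closedBall
    rw [Metric.mem_closedBall, dist_self]
    exact bmp.rIn_pos.le
  rw [h1, h2]

lemma mu_hasDeriv (x : ℝ) : HasDerivAt mu (rho x) x := by
  unfold mu
  exact intervalIntegral.integral_hasDerivAt_right (mu_rho_cont.intervalIntegrable _ _)
    (mu_rho_cont.stronglyMeasurableAtFilter _ _) mu_rho_cont.continuousAt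

lemma mu_contDiff : ContDiff ℝ ∞ mu := by
  rw [contDiff_infty_iff_deriv]
  refine ⟨fun x => (mu_hasDeriv x).differentiableAt, ?_⟩
  have : deriv mu = rho := funext fun x => (mu_hasDeriv x).deriv
  rw [this]
  exact mu_rho_contDiff

lemma mu_int_eq (a b : ℝ) : ∫ y in a..b, rho y = mu b - mu a := by
  unfold mu
  rw [eq_sub_iff_add_eq', intervalIntegral.integral_add_adjacent_intervals
    (mu_rho_cont.intervalIntegrable _ _) (mu_rho_cont.intervalIntegrable _ _)]

lemma mu_mono : Monotone mu := by
  intro a b hab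
  have h := mu_int_eq a b
  have h2 : 0 ≤ ∫ y in a..b, rho y :=
    intervalIntegral.integral_nonneg hab fun u _ => mu_rho_nonneg u
  linarith

lemma mu_zero (x : ℝ) (hx : x ≤ -1 / 4) : mu x = 0 := by
  unfold mu
  rw [intervalIntegral.integral_congr (g := fun _ => (0 : ℝ))]
  · simp
  · intro y hy
    have hy2 : y ≤ -1 / 4 := by
      have := hy.2
      rcases le_total (-1 : ℝ) x with h | h
      · rw [max_eq_right h] at this; linarith
      · rw [max_eq_left h] at this; linarith
    apply mu_rho_zero
    rw [abs_of_nonpos (by linarith)]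
    linarith

lemma mu_one (x : ℝ) (hx : 1 / 4 ≤ x) : mu x = 1 := by
  have h1 : ∫ y, rho y = 1 := bmp.integral_normed
  have h2 : mu x = ∫ y, rho y := by
    unfold mu
    rw [intervalIntegral.integral_of_le (by linarith)]
    apply setIntegral_eq_integral_of_forall_compl_eq_zero
    intro y hy
    apply mu_rho_zero
    by_contra hcon
    push Not at hcon
    rw [abs_lt] at hcon
    apply hy
    exact ⟨by linarith [hcon.1], by linarith [hcon.2]⟩
  rw [h2, h1]

lemma mu_strict (a b : ℝ) (ha : -1 / 4 ≤ a) (hab : a < b) (hb : b ≤ 1 / 4) : mu a < mu b := by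
  have h := mu_int_eq a b
  have h2 : 0 < ∫ y in a..b, rho y := by
    apply intervalIntegral.intervalIntegral_pos_of_pos_on (mu_rho_cont.intervalIntegrable _ _) _ hab
    intro y hy
    apply mu_rho_pos
    rw [abs_lt]
    exact ⟨by linarith [hy.1], by linarith [hy.2]⟩
  linarith

lemma mu_add_neg (x : ℝ) : mu x + mu (-x) = 1 := by
  have hd : ∀ y : ℝ, HasDerivAt (fun y => mu y + mu (-y)) 0 y := by
    intro y
    have h1 := mu_hasDeriv y
    have h2 : HasDerivAt (fun y => mu (-y)) (rho (-y) * (-1)) y :=
      (mu_hasDeriv (-y)).comp y (hasDerivAt_neg y)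
    have h3 := h1.add h2
    rw [mu_rho_even, show rho y + rho y * (-1) = 0 by ring] at h3
    exact h3
  have hc : (fun y => mu y + mu (-y)) x = (fun y => mu y + mu (-y)) (1 / 4) :=
    is_const_of_deriv_eq_zero (fun y => (hd y).differentiableAt) (fun y => (hd y).deriv) x (1 / 4)
  simp only at hc
  rw [hc, mu_one (1 / 4) le_rfl, mu_zero (-(1 / 4)) (by norm_num)]
  norm_num

theorem st_MU : ST_MU := by
  have h0 : mu 0 = 1 / 2 := by
    have := mu_add_neg 0
    rw [neg_zero] at this
    linarith
  refine ⟨mu_contDiff, mu_zero, mu_one, ?_, ?_, mu_add_neg, ?_, rho 0, ?_, ?_⟩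
  · intro x hx
    rw [abs_lt] at hx
    have h1 := mu_strict (-1 / 4) x le_rfl (by linarith [hx.1]) (by linarith [hx.2])
    have h2 := mu_strict x (1 / 4) (by linarith [hx.1]) (by linarith [hx.2]) le_rfl
    rw [mu_zero (-1 / 4) le_rfl] at h1
    rw [mu_one (1 / 4) le_rfl] at h2
    exact ⟨h1, h2⟩
  · intro x
    constructor
    · have := mu_mono (min_le_left x (-1 / 4))
      rwa [mu_zero (min x (-1 / 4)) (min_le_right _ _)] at this
    · have := mu_mono (le_max_left x (1 / 4))
      rwa [mu_one (max x (1 / 4)) (le_max_right _ _)] at this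
  · intro x hx hmu
    rw [abs_lt] at hx
    rcases lt_trichotomy x 0 with h | h | h
    · have := mu_strict x 0 (by linarith [hx.1]) h (by norm_num)
      linarith
    · exact h
    · have := mu_strict 0 x (by norm_num) h (by linarith [hx.2])
      linarith
  · apply mu_rho_pos
    norm_num
  · intro x hx
    have h1 := mu_int_eq 0 x
    have h2 : ∫ y in (0 : ℝ)..x, rho y = ∫ y in (0 : ℝ)..x, rho 0 := by
      apply intervalIntegral.integral_congr
      intro y hy
      apply mu_rho_const
      have h3 : |y| ≤ |x| := by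
        have := Set.abs_sub_left_of_mem_uIcc hy
        simpa using this
      exact h3.trans hx
    rw [h2, intervalIntegral.integral_const, smul_eq_mul, sub_zero] at h1
    rw [h0] at h1
    linarith

end GW
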