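import Pool.Agent.Helper89.GW.Stmts

/-!
# Module QUAD: the spline near a crossing
-/

set_option autoImplicit false

open scoped ContDiff Topology
open Set Filter

namespace GW

lemma quad_Bx_zero (hL : ST_LAM) (x : ℝ) (c c' : ℤ) (h : |x - c| ≤ 3 / 4)
    (h1 : c' ≠ c - 1) (h2 : c' ≠ c) : Bx (x - c') = 0 := by
  obtain ⟨-, -, -, hB0, -, hBp, -⟩ := hL
  by_contra hcon
  have hpos : 0 < Bx (x - c') := lt_of_le_of_ne (hB0 _) (Ne.symm hcon)
  rw [hBp] at hpos
  rw [abs_le] at h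
  have h3 : (c' : ℝ) < c + 1 := by linarith [hpos.1, h.2]
  have h4 : (c : ℝ) - 2 < c' := by linarith [hpos.2, h.1]
  have h5 : c' < c + 1 := by exact_mod_cast h3
  have h6 : c - 2 < c' := by exact_mod_cast h4
  omega

lemma quad_Lam_zero (hL : ST_LAM) (x : ℝ) (c c' : ℤ) (h : |x - c| ≤ 3 / 4)
    (h1 : c' ≠ c - 1) (h2 : c' ≠ c) (h3 : c' ≠ c + 1) : Lam (x - c') = 0 := by
  obtain ⟨-, -, -, -, hL0, -, hLp, -⟩ := hL
  by_contra hcon
  have hpos : 0 < Lam (x - c') := lt_of_le_of_ne (hL0 _) (Ne.symm hcon)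
  rw [hLp, abs_lt] at hpos
  rw [abs_le] at h
  have h3 : (c' : ℝ) < c + 2 := by linarith [hpos.1, h.2]
  have h4 : (c : ℝ) - 2 < c' := by linarith [hpos.2, h.1]
  have h5 : c' < c + 2 := by exact_mod_cast h3
  have h6 : c - 2 < c' := by exact_mod_cast h4
  omega

lemma quad_Lam_zero' (hL : ST_LAM) (x : ℝ) (h : 5 / 4 ≤ |x|) : Lam x = 0 := by
  obtain ⟨-, -, -, -, hL0, -, hLp, -⟩ := hL
  by_contra hcon
  have hpos : 0 < Lam x := lt_of_le_of_ne (hL0 _) (Ne.symm hcon)
  rw [hLp] at hpos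
  linarith

lemma quad_Lam_sum (hL : ST_LAM) (y : ℝ) (h : |y| ≤ 3 / 4) :
    Lam (y + 1) + Lam y + Lam (y - 1) = 1 := by
  have hz := quad_Lam_zero' hL
  obtain ⟨-, -, -, -, -, -, -, -, -, -, hs, -⟩ := hL
  rw [abs_le] at h
  rcases le_total y 0 with hy | hy
  · have h1 := hs y (by linarith [h.1]) hy
    have h2 := hz (y + 2) (by rw [abs_of_nonneg (by linarith [h.1])]; linarith [h.1])
    linarith
  · have h1 := hs (y - 1) (by linarith) (by linarith [h.2])
    have h2 := hz (y - 1 - 1) (by rw [abs_of_nonpos (by linarith [h.2])]; linarith [h.2])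
    rw [show y - 1 + 2 = y + 1 by ring, show y - 1 + 1 = y by ring] at h1
    linarith

lemma quad_sum2 (f : ℤ → ℝ) (a b c : ℤ) (h1 : a ≤ c - 1) (h2 : c ≤ b)
    (hf : ∀ i, i ≠ c - 1 → i ≠ c → f i = 0) :
    ∑ i ∈ Finset.Icc a b, f i = f (c - 1) + f c := by
  have hs : ({c - 1, c} : Finset ℤ) ⊆ Finset.Icc a b := by
    intro i hi
    simp only [Finset.mem_insert, Finset.mem_singleton] at hi
    rw [Finset.mem_Icc]
    omega
  rw [← Finset.sum_subset hs, Finset.sum_pair (by omega)]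
  intro i _ hi
  simp only [Finset.mem_insert, Finset.mem_singleton, not_or] at hi
  exact hf i hi.1 hi.2

lemma quad_sum3 (f : ℤ → ℝ) (a b c : ℤ) (h1 : a ≤ c - 1) (h2 : c + 1 ≤ b)
    (hf : ∀ i, i ≠ c - 1 → i ≠ c → i ≠ c + 1 → f i = 0) :
    ∑ i ∈ Finset.Icc a b, f i = f (c - 1) + f c + f (c + 1) := by
  have hs : ({c - 1, c, c + 1} : Finset ℤ) ⊆ Finset.Icc a b := by
    intro i hi
    simp only [Finset.mem_insert, Finset.mem_singleton] at hi
    rw [Finset.mem_Icc]
    omega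
  rw [← Finset.sum_subset hs, Finset.sum_insert (by simp; omega), Finset.sum_pair (by omega)]
  · ring
  intro i _ hi
  simp only [Finset.mem_insert, Finset.mem_singleton, not_or] at hi
  exact hf i hi.1 hi.2.1 hi.2.2

theorem st_QUAD (hS : ST_SPD) (hL : ST_LAM) : ST_QUAD := by
  intro z c Z s r hz hc1 hc2 hval x t hx ht
  obtain ⟨-, -, hdX, hdT⟩ := hS z hz
  have ht' : |t - ((12 : ℤ) : ℝ)| ≤ 3 / 4 := by exact_mod_cast ht
  have hBL := hL.2.2.2.2.2.2.2.2.2.2.2
  have hLs1 := quad_Lam_sum hL (x - c) hx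
  have hLs2 := quad_Lam_sum hL (t - 12) ht
  have hBx := hBL (x - c) hx
  have hBt := hBL (t - 12) ht
  -- values
  have v : ∀ i j : ℤ, |i| ≤ 1 → |j| ≤ 1 →
      (z (c + i) (12 + j) : ℝ) = Z - s * |(i : ℝ)| + r * |(j : ℝ)| := by
    intro i j hi hj
    rw [hval i j hi hj]
    push_cast
    ring
  have v00 := v 0 0 (by norm_num) (by norm_num)
  have v01 := v 0 1 (by norm_num) (by norm_num)
  have v0m := v 0 (-1) (by norm_num) (by norm_num)
  have v10 := v 1 0 (by norm_num) (by norm_num)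
  have v11 := v 1 1 (by norm_num) (by norm_num)
  have v1m := v 1 (-1) (by norm_num) (by norm_num)
  have vm0 := v (-1) 0 (by norm_num) (by norm_num)
  have vm1 := v (-1) 1 (by norm_num) (by norm_num)
  have vmm := v (-1) (-1) (by norm_num) (by norm_num)
  norm_num at v00 v01 v0m v10 v11 v1m vm0 vm1 vmm
  rw [← sub_eq_add_neg] at vm0 vm1 vmm
  constructor
  · rw [hdX x t]
    rw [quad_sum2 _ (-12) 18 c (by omega) (by omega)]
    · rw [quad_sum3 _ (-2) 26 12 (by norm_num) (by norm_num),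
        quad_sum3 _ (-2) 26 12 (by norm_num) (by norm_num)]
      · norm_num
        rw [v00, v01, v0m, v10, v11, v1m, vm0, vm1, vmm]
        rw [show x - ((c : ℝ) - 1) = x - c + 1 by ring, hBx.1, hBx.2]
        rw [show t - 12 + 1 = t - 11 by ring, show t - 12 - 1 = t - 13 by ring] at hLs2
        have e : Lam (t - 11) = 1 - Lam (t - 12) - Lam (t - 13) := by linarith
        rw [e]
        ring
      · intro i h1 h2 h3
        rw [quad_Lam_zero hL t 12 i ht' h1 h2 h3, mul_zero]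
      · intro i h1 h2 h3
        rw [quad_Lam_zero hL t 12 i ht' h1 h2 h3, mul_zero]
    · intro i h1 h2
      rw [quad_Bx_zero hL x c i hx h1 h2]
      simp
  · rw [hdT x t]
    rw [quad_sum3 _ (-12) 18 c (by omega) (by omega)]
    · rw [quad_sum2 _ (-2) 26 12 (by norm_num) (by norm_num),
        quad_sum2 _ (-2) 26 12 (by norm_num) (by norm_num),
        quad_sum2 _ (-2) 26 12 (by norm_num) (by norm_num)]
      · norm_num
        rw [v00, v01, v0m, v10, v11, v1m, vm0, vm1, vmm]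
        rw [show t - 12 + 1 = t - 11 by ring] at hBt
        rw [show x - ((c : ℝ) - 1) = x - c + 1 by ring,
          show x - ((c : ℝ) + 1) = x - c - 1 by ring, hBt.1, hBt.2]
        have e : Lam (x - c + 1) = 1 - Lam (x - c) - Lam (x - c - 1) := by linarith
        rw [e]
        ring
      · intro i h1 h2
        rw [quad_Bx_zero hL t 12 i ht' h1 h2, mul_zero]
      · intro i h1 h2
        rw [quad_Bx_zero hL t 12 i ht' h1 h2, mul_zero]
      · intro i h1 h2
        rw [quad_Bx_zero hL t 12 i ht' h1 h2, mul_zero]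
    · intro i h1 h2 h3
      rw [quad_Lam_zero hL x c i hx h1 h2 h3]
      simp

end GW
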